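import Pool.Agent.K1H2.BI.Stm2

/-!
# Branching internal DLA on `Z^3`: deviations at every time with high probability
-/

set_option autoImplicit false

namespace Pool.Agent.K1H92.BI

open MeasureTheory ProbabilityTheory Filter Set
open scoped ENNReal Topology BigOperators
open Pool.Agent.K1H2.BI

universe u

theorem frz_hit (hF : S_FRZ) (i : ℕ → Inst) (t n k : ℕ) (Fr : Set State)
    (h0 : X i (T i t) ∈ Fr) (h1 : ∀ m, m < T i t → X i m ∉ Fr) (hn : n ≤ T i t) :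
    (T i t ≤ n + k → frz Fr i n k = (X i (T i t), T i t)) ∧
    (n + k < T i t → frz Fr i n k = (X i (n + k), n + k)) := by
  obtain ⟨j, hj, h2, h3, h4⟩ := hF Fr i n k
  refine ⟨fun h => ?_, fun h => ?_⟩
  · have h5 : n + j ≤ T i t := by
      by_contra h6
      push Not at h6
      have h7 := h4 (T i t - n) (by omega)
      rw [show n + (T i t - n) = T i t by omega] at h7
      exact h7 h0
    have h6 : T i t ≤ n + j := by
      rcases Nat.lt_or_ge j k with h7 | h7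
      · by_contra h8
        push Not at h8
        exact h1 _ h8 (h3 h7)
      · omega
    have h7 : n + j = T i t := le_antisymm h5 h6
    rw [h2, h7]
  · have h5 : j = k := by
      by_contra h6
      have h7 : j < k := lt_of_le_of_ne hj h6
      exact h1 (n + j) (by omega) (h3 h7)
    rw [h2, h5]

/-- Markov's inequality for the stopped process -/
theorem cheb (hM : S_MEAS.{u}) (hL : S_LYA.{u}) {Ω : Type u} [MeasurableSpace Ω] (P : Measure Ω)
    [IsProbabilityMeasure P] (ν : PMF ℕ) (ins : ℕ → Ω → Inst) (hd : Drawn P ν ins)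
    (Fr : Set State) (n k : ℕ) (W : State → State × ℕ → ℝ) (C : ℝ) (hC : 0 ≤ C)
    (hstep : ∀ s₀ s k, K1H2.BI.Inv s → s ∉ Fr →
      ∫⁻ i, ENNReal.ofReal (W s₀ (event s i, k + 1) ^ 2) ∂(law ν)
        ≤ ENNReal.ofReal (W s₀ (s, k) ^ 2) + ENNReal.ofReal C)
    (h0 : ∀ ω, W (X (at' ins ω) n) (X (at' ins ω) n, n) = 0) (lam : ℝ) (hlam : 0 < lam) :
    P.real {ω | lam ≤ |W (X (at' ins ω) n) (frz Fr (at' ins ω) n k)|} ≤ k * C / lam ^ 2 := by
  obtain ⟨hco, hev, hme⟩ := hM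
  obtain ⟨hX, hpa, hmo, hfr⟩ := hme Ω P ν ins hd
  have hXm : Measurable fun ω => X (at' ins ω) n := (hX n).mono (hpa n) le_rfl
  have hfm : Measurable fun ω => frz Fr (at' ins ω) n k :=
    (hfr Fr n k).mono (hpa (n + k)) le_rfl
  have : DiscreteMeasurableSpace State := ⟨fun _ => trivial⟩
  have hg : Measurable fun ω =>
      ENNReal.ofReal (W (X (at' ins ω) n) (frz Fr (at' ins ω) n k) ^ 2) := by
    have h1 : Measurable fun p : State × (State × ℕ) => ENNReal.ofReal (W p.1 p.2 ^ 2) :=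
      Measurable.of_discrete
    exact h1.comp (hXm.prodMk hfm)
  have hE := hL Ω P ν ins hd Fr n Set.univ MeasurableSet.univ
    (fun s₀ p => ENNReal.ofReal (W s₀ p ^ 2)) (ENNReal.ofReal C) hstep k
  simp only [Measure.restrict_univ, h0, ne_eq, OfNat.ofNat_ne_zero, not_false_eq_true, zero_pow,
    ENNReal.ofReal_zero, lintegral_zero, zero_add] at hE
  have hMk := mul_meas_ge_le_lintegral₀ (μ := P) hg.aemeasurable (ENNReal.ofReal (lam ^ 2))
  have hsub : {ω | lam ≤ |W (X (at' ins ω) n) (frz Fr (at' ins ω) n k)|} ⊆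
      {ω | ENNReal.ofReal (lam ^ 2) ≤
        ENNReal.ofReal (W (X (at' ins ω) n) (frz Fr (at' ins ω) n k) ^ 2)} := by
    intro ω hω
    simp only [Set.mem_ofPred_eq] at hω ⊢
    apply ENNReal.ofReal_le_ofReal
    rw [← sq_abs (W _ _)]
    exact pow_le_pow_left₀ hlam.le hω 2
  have h3 : ENNReal.ofReal (lam ^ 2) *
      P {ω | lam ≤ |W (X (at' ins ω) n) (frz Fr (at' ins ω) n k)|} ≤ k * ENNReal.ofReal C :=
    (mul_le_mul_right (measure_mono hsub) _).trans (hMk.trans hE)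
  have h4 := ENNReal.toReal_mono (by finiteness) h3
  rw [ENNReal.toReal_mul, ENNReal.toReal_mul, ENNReal.toReal_ofReal (by positivity),
    ENNReal.toReal_ofReal hC, ENNReal.toReal_natCast] at h4
  rw [le_div_iff₀ (by positivity), mul_comm]
  exact h4

/-- states where the first process is stopped -/
def Fr1 (t : ℕ) (R : ℝ) : Set State := {s | t ≤ s.t ∨ ∃ x ∈ s.A, R < len x}

/-- states where the second process is stopped -/
def Fr2 (t : ℕ) : Set State := {s | t ≤ s.t}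

theorem nsq_nonneg (x : Site) : 0 ≤ nsq x := Finset.sum_nonneg fun _ _ => sq_nonneg _

theorem len_sq (x : Site) : len x ^ 2 = nsq x := by
  exact Real.sq_sqrt (nsq_nonneg x)

theorem len_nonneg (x : Site) : 0 ≤ len x := Real.sqrt_nonneg _

theorem nsq_zero : nsq 0 = 0 := by simp [nsq]

theorem phi_zero {b : ℝ} (hb : 0 ≤ b) : phi b 0 = 0 := by
  rw [phi, nsq_zero, min_eq_left hb]

theorem Y_le (b : ℝ) (s : State) : Y b s ≤ ((s.A.card : ℝ) + s.L.length) * b := by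
  have h1 : ∑ x ∈ s.A, phi b x ≤ s.A.card * b := by
    rw [← nsmul_eq_mul]
    exact Finset.sum_le_card_nsmul _ _ _ fun x _ => min_le_right _ _
  have h2 : (s.L.map (phi b)).sum ≤ s.L.length * b := by
    have h3 := List.sum_le_card_nsmul (s.L.map (phi b)) b (by
      intro x hx
      rw [List.mem_map] at hx
      obtain ⟨y, _, rfl⟩ := hx
      exact min_le_right _ _)
    rw [List.length_map, nsmul_eq_mul] at h3
    exact h3
  rw [Y]
  linarith

theorem Y_eq {b R : ℝ} (hb : R ^ 2 ≤ b) {s : State} (hL : s.L = [0])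
    (hA : ∀ x ∈ s.A, len x ≤ R) : Y b s = ∑ x ∈ s.A, nsq x := by
  have hb0 : 0 ≤ b := (sq_nonneg R).trans hb
  rw [Y, hL]
  simp only [List.map_cons, List.map_nil, List.sum_cons, List.sum_nil, phi_zero hb0, add_zero]
  apply Finset.sum_congr rfl
  intro x hx
  rw [phi, min_eq_left]
  rw [← len_sq]
  exact (pow_le_pow_left₀ (len_nonneg x) (hA x hx) 2).trans hb

theorem a_ge {u c q : ℝ} (hu : 1 ≤ u) (hcu : 6 ≤ c * u) (hq : c * u ^ 20 ≤ q) :
    c / 2 * u ^ 20 ≤ (⌊q - 2 * u ^ 19⌋₊ : ℝ) := by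
  have h1 := (Nat.lt_floor_add_one (q - 2 * u ^ 19)).le
  have h2 : (1 : ℝ) ≤ u ^ 19 := one_le_pow₀ hu
  have h3 : 6 * u ^ 19 ≤ c * u ^ 20 := by
    calc 6 * u ^ 19 ≤ (c * u) * u ^ 19 := by
          apply mul_le_mul_of_nonneg_right hcu (by positivity)
      _ = c * u ^ 20 := by ring
  linarith

theorem det (hF : S_FRZ) (hT : S_TRAJ) (i : ℕ → Inst) (t : ℕ) (ht : 1 ≤ t)
    (hre : ∃ n, t ≤ (X i n).t)
    {q C c ε e' es u r : ℝ} (hr0 : 0 ≤ r) (hu : 1 ≤ u) (htu : (t : ℝ) = u ^ 12)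
    (hru : r ≤ u ^ 4) (hsr : Real.sqrt r ≤ u ^ 2) (hC : 0 < C) (hCu : C ≤ u) (hc : 0 < c)
    (hcu : 6 ≤ c * u) (hε : 0 < ε) (hεu : 1 ≤ ε * u ^ 2) (hq : c * u ^ 20 ≤ q)
    (hA1 : ∀ x ∈ agg i t, len x ≤ 2 * r)
    (hA2 : |∑ x ∈ agg i t, nsq x - q| ≤ C * u ^ 18)
    (hA3 : |((agg i t).card : ℝ) - t| ≤ C * (ε * Real.sqrt r + 1) * u ^ 8)
    (hB1 : ¬ u ^ 19 ≤ |Y ((2 * r + 1 + 1) ^ 2) (frz (Fr1 t (2 * r + 1)) i 0 ⌈34 * u ^ 20⌉₊).1 -
      ((frz (Fr1 t (2 * r + 1)) i 0 ⌈34 * u ^ 20⌉₊).2 : ℝ)|)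
    (hB2 : ¬ (t : ℝ) ≤ |∑ j ∈ Finset.range ⌈34 * u ^ 20⌉₊, (((i j).1.length : ℝ) - 1)|)
    (hB3 : ¬ e' * u ^ 10 ≤ |S (frz (Fr2 t) i ⌊q - 2 * u ^ 19⌋₊ (⌈4 * u ^ 19⌉₊ + 2)).1 -
      S (X i ⌊q - 2 * u ^ 19⌋₊)|)
    (hes : 0 ≤ es) (hsmall : 2 * C * ε + e' ≤ es * Real.sqrt (c / 2)) :
    |∑ j ∈ Finset.range ⌊q - 2 * u ^ 19⌋₊, (((i j).1.length : ℝ) - 1)|
      ≤ es * Real.sqrt (⌊q - 2 * u ^ 19⌋₊ : ℝ) := by
  push Not at hB1 hB2 hB3
  obtain ⟨n, hn⟩ := hre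
  obtain ⟨hInv, hS, hmon, -, hreach⟩ := hT i
  obtain ⟨-, hTt, hTL, -, hTk⟩ := hreach t n ht hn
  have hu0 : 0 < u := by linarith
  have hin1 : X i (T i t) ∈ Fr1 t (2 * r + 1) := Or.inl hTt.ge
  have hnot1 : ∀ m, m < T i t → X i m ∉ Fr1 t (2 * r + 1) := by
    intro m hm hmem
    rcases hmem with h | ⟨x, hx, hxl⟩
    · exact absurd h (not_le.2 (hTk m hm))
    · have h1 := hA1 x ((hmon m (T i t) hm.le).1 hx)
      linarith
  have hin2 : X i (T i t) ∈ Fr2 t := hTt.ge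
  have hnot2 : ∀ m, m < T i t → X i m ∉ Fr2 t := by
    intro m hm hmem
    exact absurd hmem (not_le.2 (hTk m hm))
  -- `T t ≤ N`
  have hTN : T i t ≤ 0 + ⌈34 * u ^ 20⌉₊ := by
    by_contra hcon
    push Not at hcon
    have h1 := (frz_hit hF i t 0 ⌈34 * u ^ 20⌉₊ (Fr1 t (2 * r + 1)) hin1 hnot1
      (Nat.zero_le _)).2 hcon
    rw [h1, Nat.zero_add] at hB1
    rw [Nat.zero_add] at hcon
    simp only at hB1
    have h2 := Y_le ((2 * r + 1 + 1) ^ 2) (X i ⌈34 * u ^ 20⌉₊)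
    have h3 := hS ⌈34 * u ^ 20⌉₊
    rw [← h3] at hB2
    have h4 := (abs_lt.1 hB2).2
    rw [S] at h4
    have h5 : ((X i ⌈34 * u ^ 20⌉₊).t : ℝ) + 1 ≤ t := by exact_mod_cast hTk _ hcon
    have h6 : ((X i ⌈34 * u ^ 20⌉₊).A.card : ℝ) + (X i ⌈34 * u ^ 20⌉₊).L.length ≤ 2 * u ^ 12 := by
      rw [← htu]
      linarith
    have h7 : (2 * r + 1 + 1) ^ 2 ≤ 16 * u ^ 8 := by
      have h8 : 2 * r + 1 + 1 ≤ 4 * u ^ 4 := by
        have : (1 : ℝ) ≤ u ^ 4 := one_le_pow₀ hu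
        linarith
      calc (2 * r + 1 + 1) ^ 2 ≤ (4 * u ^ 4) ^ 2 := pow_le_pow_left₀ (by linarith) h8 2
        _ = 16 * u ^ 8 := by ring
    have h8 : Y ((2 * r + 1 + 1) ^ 2) (X i ⌈34 * u ^ 20⌉₊) ≤ 32 * u ^ 20 := by
      calc _ ≤ _ := h2
        _ ≤ (2 * u ^ 12) * (16 * u ^ 8) := by
            apply mul_le_mul h6 h7 (by positivity) (by positivity)
        _ = 32 * u ^ 20 := by ring
    have h9 := (abs_lt.1 hB1).1
    have h10 := Nat.le_ceil (34 * u ^ 20)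
    have h11 : u ^ 19 ≤ u ^ 20 := pow_le_pow_right₀ hu (by norm_num)
    have h12 : 0 < u ^ 20 := by positivity
    linarith
  have hfr1 := (frz_hit hF i t 0 ⌈34 * u ^ 20⌉₊ (Fr1 t (2 * r + 1)) hin1 hnot1
      (Nat.zero_le _)).1 hTN
  rw [hfr1] at hB1
  simp only at hB1
  have hY : Y ((2 * r + 1 + 1) ^ 2) (X i (T i t)) = ∑ x ∈ agg i t, nsq x := by
    apply Y_eq (R := 2 * r + 1) (by nlinarith) hTL
    intro x hx
    have := hA1 x hx
    linarith
  rw [hY] at hB1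
  have hTq : |(T i t : ℝ) - q| ≤ 2 * u ^ 19 := by
    have h1 : C * u ^ 18 ≤ u ^ 19 := by
      calc C * u ^ 18 ≤ u * u ^ 18 := mul_le_mul_of_nonneg_right hCu (by positivity)
        _ = u ^ 19 := by ring
    rw [abs_le] at hA2 ⊢
    rw [abs_lt] at hB1
    constructor <;> linarith [hA2.1, hA2.2, hB1.1, hB1.2]
  have hage := a_ge hu hcu hq
  have hqpos : 0 ≤ q - 2 * u ^ 19 := by
    have h3 : 6 * u ^ 19 ≤ c * u ^ 20 := by
      calc 6 * u ^ 19 ≤ (c * u) * u ^ 19 := by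
            apply mul_le_mul_of_nonneg_right hcu (by positivity)
        _ = c * u ^ 20 := by ring
    have h4 : 0 < u ^ 19 := by positivity
    linarith
  have haT : ⌊q - 2 * u ^ 19⌋₊ ≤ T i t := by
    have h1 := Nat.floor_le hqpos
    have h2 := (abs_le.1 hTq).1
    have h3 : (⌊q - 2 * u ^ 19⌋₊ : ℝ) ≤ T i t := by linarith
    exact_mod_cast h3
  have hTak : T i t ≤ ⌊q - 2 * u ^ 19⌋₊ + (⌈4 * u ^ 19⌉₊ + 2) := by
    have h1 := Nat.lt_floor_add_one (q - 2 * u ^ 19)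
    have h2 := (abs_le.1 hTq).2
    have h3 := Nat.le_ceil (4 * u ^ 19)
    have h4 : (T i t : ℝ) ≤ ((⌊q - 2 * u ^ 19⌋₊ + (⌈4 * u ^ 19⌉₊ + 2) : ℕ) : ℝ) := by
      push_cast
      linarith
    exact_mod_cast h4
  have hfr2 := (frz_hit hF i t ⌊q - 2 * u ^ 19⌋₊ (⌈4 * u ^ 19⌉₊ + 2) (Fr2 t) hin2 hnot2
      haT).1 hTak
  rw [hfr2] at hB3
  simp only at hB3
  have hST : S (X i (T i t)) = ((agg i t).card : ℝ) - t := by
    rw [S, hTL, hTt]
    simp only [List.length_singleton, Nat.cast_one, agg]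
    ring
  rw [hST, hS] at hB3
  have hcard : |((agg i t).card : ℝ) - t| ≤ 2 * C * ε * u ^ 10 := by
    refine hA3.trans ?_
    have h1 : ε * Real.sqrt r + 1 ≤ 2 * ε * u ^ 2 := by
      have := mul_le_mul_of_nonneg_left hsr hε.le
      linarith
    calc C * (ε * Real.sqrt r + 1) * u ^ 8 ≤ C * (2 * ε * u ^ 2) * u ^ 8 := by
          apply mul_le_mul_of_nonneg_right _ (by positivity)
          exact mul_le_mul_of_nonneg_left h1 hC.le
      _ = 2 * C * ε * u ^ 10 := by ring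
  have hW : |∑ j ∈ Finset.range ⌊q - 2 * u ^ 19⌋₊, (((i j).1.length : ℝ) - 1)|
      ≤ (2 * C * ε + e') * u ^ 10 := by
    rw [abs_le] at hcard ⊢
    rw [abs_lt] at hB3
    constructor <;> linarith [hcard.1, hcard.2, hB3.1, hB3.2]
  refine hW.trans ?_
  have h1 : Real.sqrt (c / 2) * u ^ 10 ≤ Real.sqrt (⌊q - 2 * u ^ 19⌋₊ : ℝ) := by
    apply Real.le_sqrt_of_sq_le
    rw [mul_pow, Real.sq_sqrt (by positivity)]
    calc c / 2 * (u ^ 10) ^ 2 = c / 2 * u ^ 20 := by ring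
      _ ≤ _ := hage
  calc (2 * C * ε + e') * u ^ 10 ≤ (es * Real.sqrt (c / 2)) * u ^ 10 :=
        mul_le_mul_of_nonneg_right hsmall (by positivity)
    _ = es * (Real.sqrt (c / 2) * u ^ 10) := by ring
    _ ≤ _ := mul_le_mul_of_nonneg_left h1 hes

theorem pw (t : ℕ) (k : ℕ) : (t : ℝ) ^ ((1 / 12 : ℝ) * (k : ℝ)) = ((t : ℝ) ^ (1 / 12 : ℝ)) ^ k :=
  Real.rpow_mul_natCast (Nat.cast_nonneg t) _ _

theorem rad_nonneg (t : ℕ) : 0 ≤ rad t := Real.rpow_nonneg (by positivity) _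

theorem rad_le (t : ℕ) : rad t ≤ ((t : ℝ) ^ (1 / 12 : ℝ)) ^ 4 := by
  rw [← pw, show (1 / 12 : ℝ) * ((4 : ℕ) : ℝ) = 1 / 3 by norm_num, rad]
  apply Real.rpow_le_rpow (by positivity) _ (by norm_num)
  rw [div_le_iff₀ (by positivity)]
  have h1 := Real.pi_gt_three
  have h2 : (0 : ℝ) ≤ t := Nat.cast_nonneg t
  nlinarith

theorem sqrt_rad_le (t : ℕ) : Real.sqrt (rad t) ≤ ((t : ℝ) ^ (1 / 12 : ℝ)) ^ 2 := by
  rw [Real.sqrt_le_left (by positivity)]
  calc rad t ≤ _ := rad_le t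
    _ = _ := by ring

theorem var_nonneg (ν : PMF ℕ) : 0 ≤ var ν :=
  tsum_nonneg fun _ => mul_nonneg ENNReal.toReal_nonneg (sq_nonneg _)

theorem Y_X0 {b : ℝ} (hb : 0 ≤ b) (i : ℕ → Inst) : Y b (X i 0) = 0 := by
  simp [Y, X, phi_zero hb]

theorem t_HIGHP (hL : S_LYA.{u}) (h1 : S_ONE) (h4 : S_ONE4) (hSB : S_SB.{u}) (hSE : S_SECM.{u})
    (hSH : S_SHELL) (hT : S_TRAJ) (hF : S_FRZ) (hM : S_MEAS.{u}) (hI : S_INNER.{u}) :
    S_HIGHP.{u} := by
  intro Ω _ P _ ν ins hν hd η hη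
  obtain ⟨q, c, C, hc, hC, hq, hsh⟩ := hSH
  obtain ⟨es, hes, hsb⟩ := hSB Ω P ν ins hν hd (η / 2) (by positivity)
  obtain ⟨C4, hC4, hone4⟩ := h4 ν hν
  have hone := (h1 ν hν).1
  obtain ⟨hre, -⟩ := hI Ω P ν ins hν hd
  have hv := var_nonneg ν
  have hsc : 0 < Real.sqrt (c / 2) := Real.sqrt_pos.2 (by positivity)
  set e' : ℝ := es * Real.sqrt (c / 2) / 2 with he'
  have he'0 : 0 < e' := by positivity
  set ε : ℝ := min 1 (es * Real.sqrt (c / 2) / (4 * C)) with hεdef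
  have hε : 0 < ε := lt_min one_pos (by positivity)
  have hε1 : ε ≤ 1 := min_le_left _ _
  have hε2 : 2 * C * ε + e' ≤ es * Real.sqrt (c / 2) := by
    have h5 : ε ≤ es * Real.sqrt (c / 2) / (4 * C) := min_le_right _ _
    rw [le_div_iff₀ (by positivity)] at h5
    rw [he']
    linarith
  refine ⟨ε, hε, ?_⟩
  have hu : Tendsto (fun t : ℕ => (t : ℝ) ^ (1 / 12 : ℝ)) atTop atTop :=
    (tendsto_rpow_atTop (by norm_num)).comp tendsto_natCast_atTop_atTop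
  -- the index `a` tends to infinity
  have hq' : ∀ᶠ t : ℕ in atTop, c * ((t : ℝ) ^ (1 / 12 : ℝ)) ^ 20 ≤ q t := by
    filter_upwards [hq] with t h
    rw [← pw, show (1 / 12 : ℝ) * ((20 : ℕ) : ℝ) = 5 / 3 by norm_num]
    exact h.1
  have ha : Tendsto (fun t : ℕ => ⌊q t - 2 * ((t : ℝ) ^ (1 / 12 : ℝ)) ^ 19⌋₊) atTop atTop := by
    rw [← tendsto_natCast_atTop_iff (R := ℝ)]
    have h5 : Tendsto (fun t : ℕ => c / 2 * (t : ℝ) ^ (1 / 12 : ℝ)) atTop atTop :=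
      hu.const_mul_atTop (by positivity)
    refine tendsto_atTop_mono' _ ?_ h5
    filter_upwards [hq', hu.eventually_ge_atTop 1, hu.eventually_ge_atTop (6 / c)] with t h6 h7 h8
    have h9 : 6 ≤ c * (t : ℝ) ^ (1 / 12 : ℝ) := by
      rw [div_le_iff₀ hc] at h8
      linarith
    refine le_trans ?_ (a_ge h7 h9 h6)
    apply mul_le_mul_of_nonneg_left _ (by positivity)
    exact le_self_pow₀ h7 (by norm_num)
  filter_upwards [hq', hsh, ha.eventually hsb, hu.eventually_ge_atTop 1,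
    hu.eventually_ge_atTop (6 / c), hu.eventually_ge_atTop C, hu.eventually_ge_atTop (1 / ε),
    hu.eventually_ge_atTop (2835 * C4 / (η / 6)), hu.eventually_ge_atTop (35 * var ν / (η / 6)),
    hu.eventually_ge_atTop (7 * var ν / (η / 6 * e' ^ 2)), eventually_ge_atTop 1]
    with t hqt hsht hsbt hu1 hu2 hu3 hu4 hu5 hu6 hu7 ht
  have htu : (t : ℝ) = ((t : ℝ) ^ (1 / 12 : ℝ)) ^ 12 := by
    rw [← pw, show (1 / 12 : ℝ) * ((12 : ℕ) : ℝ) = 1 by norm_num, Real.rpow_one]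
  have htC : (t : ℝ) ^ (3 / 2 : ℝ) = ((t : ℝ) ^ (1 / 12 : ℝ)) ^ 18 := by
    rw [← pw, show (1 / 12 : ℝ) * ((18 : ℕ) : ℝ) = 3 / 2 by norm_num]
  have ht8 : (t : ℝ) ^ (2 / 3 : ℝ) = ((t : ℝ) ^ (1 / 12 : ℝ)) ^ 8 := by
    rw [← pw, show (1 / 12 : ℝ) * ((8 : ℕ) : ℝ) = 2 / 3 by norm_num]
  rw [htC, ht8] at hsht
  have hr4 := rad_le t
  have hr2 := sqrt_rad_le t
  have hr0 := rad_nonneg t
  set w : ℝ := (t : ℝ) ^ (1 / 12 : ℝ) with hw
  set r : ℝ := rad t with hr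
  have hw0 : 0 < w := by linarith
  have hcu : 6 ≤ c * w := by
    rw [div_le_iff₀ hc] at hu2
    linarith
  have hεu : 1 ≤ ε * w ^ 2 := by
    rw [div_le_iff₀ hε] at hu4
    have h5 : w ≤ w ^ 2 := le_self_pow₀ hu1 (by norm_num)
    have h6 := mul_le_mul_of_nonneg_left h5 hε.le
    linarith
  -- the bad events
  set N : ℕ := ⌈34 * w ^ 20⌉₊ with hN
  set a : ℕ := ⌊q t - 2 * w ^ 19⌋₊ with hadef
  set k : ℕ := ⌈4 * w ^ 19⌉₊ + 2 with hk
  set B1 : Set Ω := {ω | w ^ 19 ≤ |Y ((2 * r + 1 + 1) ^ 2)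
    (frz (Fr1 t (2 * r + 1)) (at' ins ω) 0 N).1 -
      ((frz (Fr1 t (2 * r + 1)) (at' ins ω) 0 N).2 : ℝ)|} with hB1
  set B2 : Set Ω := {ω | (t : ℝ) ≤ |∑ j ∈ Finset.range N, (((ins j ω).1.length : ℝ) - 1)|}
    with hB2
  set B3 : Set Ω := {ω | e' * w ^ 10 ≤ |S (frz (Fr2 t) (at' ins ω) a k).1 -
      S (X (at' ins ω) a)|} with hB3
  set B4 : Set Ω := {ω | |∑ j ∈ Finset.range a, (((ins j ω).1.length : ℝ) - 1)|
    ≤ es * Real.sqrt a} with hB4
  set Gd : Set Ω := {ω | ε * Real.sqrt r ≤ devI (agg (at' ins ω) t) t ∨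
      ε * Real.sqrt r ≤ devO (agg (at' ins ω) t) t} with hGd
  have hNle : (N : ℝ) ≤ 35 * w ^ 20 := by
    have h5 := (Nat.ceil_lt_add_one (show 0 ≤ 34 * w ^ 20 by positivity)).le
    have h6 : (1 : ℝ) ≤ w ^ 20 := one_le_pow₀ hu1
    rw [← hN] at h5
    linarith
  have hkle : (k : ℝ) ≤ 7 * w ^ 19 := by
    have h5 := (Nat.ceil_lt_add_one (show 0 ≤ 4 * w ^ 19 by positivity)).le
    have h6 : (1 : ℝ) ≤ w ^ 19 := one_le_pow₀ hu1
    rw [hk]
    push_cast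
    linarith
  have hP1 : P.real B1 ≤ η / 6 := by
    have h5 := cheb hM hL P ν ins hd (Fr1 t (2 * r + 1)) 0 N
      (fun _ p => Y ((2 * r + 1 + 1) ^ 2) p.1 - (p.2 : ℝ)) (C4 * (2 * r + 1) ^ 4) (by positivity)
      (by
        intro _ s k hs hsF
        apply hone4 s (2 * r + 1) k hs (by linarith)
        intro x hx
        by_contra hcon
        push Not at hcon
        exact hsF (Or.inr ⟨x, hx, hcon⟩))
      (by
        intro ω
        simp only [Y_X0 (sq_nonneg _), Nat.cast_zero, sub_zero])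
      (w ^ 19) (by positivity)
    refine h5.trans ?_
    rw [div_le_iff₀ (by positivity)]
    have h6 : (2 * r + 1) ^ 4 ≤ 81 * w ^ 16 := by
      have h7 : 2 * r + 1 ≤ 3 * w ^ 4 := by
        have : (1 : ℝ) ≤ w ^ 4 := one_le_pow₀ hu1
        linarith
      calc (2 * r + 1) ^ 4 ≤ (3 * w ^ 4) ^ 4 := pow_le_pow_left₀ (by linarith) h7 4
        _ = 81 * w ^ 16 := by ring
    have h7 : 2835 * C4 ≤ η / 6 * w := by
      rw [div_le_iff₀ (by positivity)] at hu5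
      linarith
    calc (N : ℝ) * (C4 * (2 * r + 1) ^ 4) ≤ (35 * w ^ 20) * (C4 * (81 * w ^ 16)) := by
          apply mul_le_mul hNle _ (by positivity) (by positivity)
          exact mul_le_mul_of_nonneg_left h6 hC4.le
      _ = (2835 * C4) * w ^ 36 := by ring
      _ ≤ (η / 6 * w) * w ^ 36 := mul_le_mul_of_nonneg_right h7 (by positivity)
      _ = η / 6 * w ^ 37 := by ring
      _ ≤ η / 6 * w ^ 38 := by
          apply mul_le_mul_of_nonneg_left _ (by positivity)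
          exact pow_le_pow_right₀ hu1 (by norm_num)
      _ = η / 6 * (w ^ 19) ^ 2 := by ring
  have hP2 : P.real B2 ≤ η / 6 := by
    have ht0 : (0 : ℝ) < t := by exact_mod_cast ht
    have h5 := hSE Ω P ν ins hν hd N (t : ℝ) ht0
    refine h5.trans ?_
    rw [div_le_iff₀ (by positivity), htu]
    have h7 : 35 * var ν ≤ η / 6 * w := by
      rw [div_le_iff₀ (by positivity)] at hu6
      linarith
    calc (N : ℝ) * var ν ≤ (35 * w ^ 20) * var ν := mul_le_mul_of_nonneg_right hNle hv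
      _ = (35 * var ν) * w ^ 20 := by ring
      _ ≤ (η / 6 * w) * w ^ 20 := mul_le_mul_of_nonneg_right h7 (by positivity)
      _ = η / 6 * w ^ 21 := by ring
      _ ≤ η / 6 * w ^ 24 := by
          apply mul_le_mul_of_nonneg_left _ (by positivity)
          exact pow_le_pow_right₀ hu1 (by norm_num)
      _ = η / 6 * (w ^ 12) ^ 2 := by ring
  have hP3 : P.real B3 ≤ η / 6 := by
    have h5 := cheb hM hL P ν ins hd (Fr2 t) a k
      (fun s₀ p => S p.1 - S s₀) (var ν) hv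
      (by
        intro s₀ s k hs _
        exact hone s (S s₀) hs)
      (by
        intro ω
        simp only [sub_self])
      (e' * w ^ 10) (by positivity)
    refine h5.trans ?_
    rw [div_le_iff₀ (by positivity)]
    have h7 : 7 * var ν ≤ η / 6 * e' ^ 2 * w := by
      rw [div_le_iff₀ (by positivity)] at hu7
      linarith
    calc (k : ℝ) * var ν ≤ (7 * w ^ 19) * var ν := mul_le_mul_of_nonneg_right hkle hv
      _ = (7 * var ν) * w ^ 19 := by ring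
      _ ≤ (η / 6 * e' ^ 2 * w) * w ^ 19 := mul_le_mul_of_nonneg_right h7 (by positivity)
      _ = η / 6 * (e' * w ^ 10) ^ 2 := by ring
  have hP4 : P.real B4 ≤ η / 2 := hsbt
  have hcov : P Set.univ ≤ P (Gd ∪ (B1 ∪ (B2 ∪ (B3 ∪ B4)))) := by
    apply measure_mono_ae
    filter_upwards [hre] with ω hω _
    by_contra hcon
    have hcon' : ω ∉ Gd ∪ (B1 ∪ (B2 ∪ (B3 ∪ B4))) := hcon
    simp only [Set.mem_union, not_or] at hcon'
    obtain ⟨hg, hb1, hb2, hb3, hb4⟩ := hcon'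
    have hg' : devI (agg (at' ins ω) t) t < ε * Real.sqrt r ∧
        devO (agg (at' ins ω) t) t < ε * Real.sqrt r := by
      rw [hGd, Set.mem_ofPred_eq, not_or, not_le, not_le] at hg
      exact hg
    obtain ⟨hs1, hs2, hs3⟩ := hsht (agg (at' ins ω) t) (ε * Real.sqrt r) (by positivity)
      (by
        have := mul_le_mul_of_nonneg_right hε1 (Real.sqrt_nonneg r)
        linarith) hg'.1 hg'.2
    obtain ⟨n, hn⟩ := hω t ht
    exact hb4 (det hF hT (at' ins ω) t ht ⟨n, hn.ge⟩ hr0 hu1 htu hr4 hr2 hC hu3 hc hcu hε hεu hqt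
      hs1 hs2 hs3 hb1 hb2 hb3 hes.le hε2)
  have hcov' : (1 : ℝ) ≤ P.real (Gd ∪ (B1 ∪ (B2 ∪ (B3 ∪ B4)))) := by
    have h5 := ENNReal.toReal_mono (measure_ne_top P _) hcov
    rw [measure_univ, ENNReal.toReal_one] at h5
    exact h5
  have h5 := measureReal_union_le (μ := P) Gd (B1 ∪ (B2 ∪ (B3 ∪ B4)))
  have h6 := measureReal_union_le (μ := P) B1 (B2 ∪ (B3 ∪ B4))
  have h7 := measureReal_union_le (μ := P) B2 (B3 ∪ B4)
  have h8 := measureReal_union_le (μ := P) B3 B4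
  linarith

end Pool.Agent.K1H92.BI
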