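import Pool.Agent.K1H2.BI.Stm

/-!
# Lattice points in balls of `R^3`
-/

set_option autoImplicit false

namespace Pool.Agent.K1H92.BI

open MeasureTheory Filter Set
open scoped ENNReal Topology BigOperators
open Pool.Agent.K1H2.BI

/-- a site as a point of Euclidean space -/
noncomputable def pt (z : Site) : EuclideanSpace ℝ (Fin 3) :=
  WithLp.toLp 2 (fun i => (z i : ℝ))

/-- the half-open unit cube centred at a site -/
def cube (z : Site) : Set (EuclideanSpace ℝ (Fin 3)) :=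
  WithLp.ofLp ⁻¹' (Set.pi univ fun i => Ico ((z i : ℝ) - 1 / 2) ((z i : ℝ) + 1 / 2))

theorem mem_cube {z : Site} {y : EuclideanSpace ℝ (Fin 3)} :
    y ∈ cube z ↔ ∀ i, (z i : ℝ) - 1 / 2 ≤ y i ∧ y i < (z i : ℝ) + 1 / 2 := by
  simp [cube, Set.mem_pi]

theorem norm_pt (z : Site) : ‖pt z‖ = len z := by
  rw [EuclideanSpace.norm_eq]
  simp [pt, len, sq_abs]

theorem meas_cube (z : Site) : MeasurableSet (cube z) := by
  apply (PiLp.volume_preserving_ofLp (Fin 3)).measurable
  exact MeasurableSet.univ_pi fun i => measurableSet_Ico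

theorem vol_cube (z : Site) : volume (cube z) = 1 := by
  have h := (PiLp.volume_preserving_ofLp (Fin 3)).measure_preimage
    (s := Set.pi univ fun i => Ico ((z i : ℝ) - 1 / 2) ((z i : ℝ) + 1 / 2))
    (MeasurableSet.univ_pi fun i => measurableSet_Ico).nullMeasurableSet
  rw [cube, h, Real.volume_pi_Ico]
  have h1 : ∀ i : Fin 3, ENNReal.ofReal ((z i : ℝ) + 1 / 2 - ((z i : ℝ) - 1 / 2)) = 1 := by
    intro i
    rw [show (z i : ℝ) + 1 / 2 - ((z i : ℝ) - 1 / 2) = 1 by ring, ENNReal.ofReal_one]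
  simp only [h1, Finset.prod_const_one]

theorem disj_cube {z w : Site} (h : z ≠ w) : Disjoint (cube z) (cube w) := by
  rw [Set.disjoint_left]
  intro y hz hw
  apply h
  rw [mem_cube] at hz hw
  funext i
  obtain ⟨h1, h2⟩ := hz i
  obtain ⟨h3, h4⟩ := hw i
  have h5 : (z i : ℝ) < w i + 1 := by linarith
  have h6 : (w i : ℝ) < z i + 1 := by linarith
  have h7 : z i < w i + 1 := by exact_mod_cast h5
  have h8 : w i < z i + 1 := by exact_mod_cast h6
  omega

theorem dist_pt {z : Site} {y : EuclideanSpace ℝ (Fin 3)} (h : y ∈ cube z) : dist (pt z) y < 1 := by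
  rw [mem_cube] at h
  rw [EuclideanSpace.dist_eq]
  have h1 : ∀ i : Fin 3, dist ((pt z) i) (y i) ^ 2 ≤ 1 / 4 := by
    intro i
    obtain ⟨h1, h2⟩ := h i
    rw [Real.dist_eq, sq_abs]
    have h3 : (pt z) i = (z i : ℝ) := rfl
    rw [h3]
    nlinarith
  have h2 : ∑ i : Fin 3, dist ((pt z) i) (y i) ^ 2 ≤ 3 / 4 := by
    calc ∑ i : Fin 3, dist ((pt z) i) (y i) ^ 2 ≤ ∑ i : Fin 3, (1 / 4 : ℝ) :=
          Finset.sum_le_sum fun i _ => h1 i
      _ = 3 / 4 := by norm_num
  calc Real.sqrt (∑ i : Fin 3, dist ((pt z) i) (y i) ^ 2) < Real.sqrt 1 :=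
        Real.sqrt_lt_sqrt (Finset.sum_nonneg fun i _ => sq_nonneg _) (by linarith)
    _ = 1 := Real.sqrt_one

theorem cover (y : EuclideanSpace ℝ (Fin 3)) : y ∈ cube (fun i => ⌊y i + 1 / 2⌋) := by
  rw [mem_cube]
  intro i
  have h1 := Int.floor_le (y i + 1 / 2)
  have h2 := Int.lt_floor_add_one (y i + 1 / 2)
  constructor <;> linarith

theorem vol_union (A : Finset Site) : volume (⋃ z ∈ A, cube z) = (A.card : ℝ≥0∞) := by
  rw [measure_biUnion_finset (fun z _ w _ h => disj_cube h) (fun z _ => meas_cube z)]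
  simp only [vol_cube, Finset.sum_const, nsmul_eq_mul, mul_one]

theorem vol_ball {r : ℝ} (hr : 0 ≤ r) :
    volume (Metric.ball (0 : EuclideanSpace ℝ (Fin 3)) r)
      = ENNReal.ofReal (4 / 3 * Real.pi * r ^ 3) := by
  rw [EuclideanSpace.volume_ball_fin_three, ← ENNReal.ofReal_pow hr,
    ← ENNReal.ofReal_mul (by positivity)]
  congr 1
  ring

theorem t_LAT : S_LAT := by
  refine ⟨?_, ?_⟩
  · intro A ρ hρ hA
    have h1 : Metric.ball (0 : EuclideanSpace ℝ (Fin 3)) (ρ - 1) ⊆ ⋃ z ∈ A, cube z := by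
      intro y hy
      rw [mem_ball_zero_iff] at hy
      simp only [Set.mem_iUnion]
      refine ⟨_, hA _ ?_, cover y⟩
      rw [← norm_pt]
      have h2 := dist_pt (cover y)
      have h3 : ‖pt (fun i => ⌊y i + 1 / 2⌋)‖ ≤ dist (pt (fun i => ⌊y i + 1 / 2⌋)) y + ‖y‖ := by
        rw [dist_eq_norm]
        calc ‖pt (fun i => ⌊y i + 1 / 2⌋)‖ = ‖(pt (fun i => ⌊y i + 1 / 2⌋) - y) + y‖ := by
              rw [sub_add_cancel]
          _ ≤ _ := norm_add_le _ _
      linarith
    have h2 := measure_mono (μ := volume) h1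
    rw [vol_union, vol_ball (by linarith), ENNReal.ofReal_le_iff_le_toReal (by simp)] at h2
    simpa using h2
  · intro A ρ hρ hA
    have h1 : (⋃ z ∈ A, cube z) ⊆ Metric.ball (0 : EuclideanSpace ℝ (Fin 3)) (ρ + 1) := by
      intro y hy
      simp only [Set.mem_iUnion] at hy
      obtain ⟨z, hz, hy⟩ := hy
      rw [mem_ball_zero_iff]
      have h2 := dist_pt hy
      have h3 := hA z hz
      rw [← norm_pt] at h3
      have h4 : ‖y‖ ≤ dist (pt z) y + ‖pt z‖ := by
        rw [dist_comm, dist_eq_norm]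
        calc ‖y‖ = ‖(y - pt z) + pt z‖ := by rw [sub_add_cancel]
          _ ≤ _ := norm_add_le _ _
      linarith
    have h2 := measure_mono (μ := volume) h1
    rw [vol_union, vol_ball (by linarith)] at h2
    have h3 := ENNReal.toReal_mono ENNReal.ofReal_ne_top h2
    rw [ENNReal.toReal_ofReal (by positivity)] at h3
    simpa using h3

end Pool.Agent.K1H92.BI
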