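import Pool.Agent.K1H53.BI.Plan4

/-!
# Cylinder probabilities (project BI of helper53, piece CYL)
-/

set_option autoImplicit false

open scoped ENNReal
open Finset MeasureTheory Filter

namespace Pool.Agent.K1H92.BI53

open Pool.Agent.K1H53.BI

theorem run_pure (ν : PMF ℕ) (B : Finset V) (n : ℕ) :
    run (step ν) ⟨B, [], 0⟩ n = PMF.pure ⟨B, [], 0⟩ := by
  induction n with
  | zero => rfl
  | succ n ih =>
    rw [run, ih, PMF.pure_bind, step]
    simp

open Classical in
theorem Phi_zero (ν : PMF ℕ) (G : Finset V → Prop) (B : Finset V) :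
    Phi ν G ⟨B, [], 0⟩ = if G B then 1 else 0 := by
  rw [Phi]
  have h : ∀ n, Ex (run (step ν) ⟨B, [], 0⟩ n) (ind fun s => Fin' s ∧ G s.A)
      = if G B then 1 else 0 := by
    intro n
    rw [run_pure, Ex_pure, ind]
    simp [Fin']
  simp only [h, ciSup_const]

section
variable {ν : PMF ℕ} {Ω : Type} {mΩ : MeasurableSpace Ω} {P : Measure Ω} {X : ℕ → Ω → Finset V}

/-- the cylinder -/
def cyl (X : ℕ → Ω → Finset V) (a : ℕ → Finset V) (t : ℕ) : Set Ω :=
  {ω | ∀ i, 1 ≤ i → i ≤ t → X i ω = a i}

theorem meas_cyl (h : IsBIDLA ν P X) (a : ℕ → Finset V) (t : ℕ) : MeasurableSet (cyl X a t) := by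
  have h1 : cyl X a t = ⋂ i : ℕ, {ω | 1 ≤ i → i ≤ t → X i ω = a i} := by
    ext ω
    simp [cyl]
  rw [h1]
  apply MeasurableSet.iInter
  intro i
  by_cases h2 : 1 ≤ i ∧ i ≤ t
  · have h3 : {ω | 1 ≤ i → i ≤ t → X i ω = a i} = {ω | X i ω = a i} := by
      ext ω
      simp [h2.1, h2.2]
    rw [h3]
    exact h.meas i (a i)
  · have h3 : {ω | 1 ≤ i → i ≤ t → X i ω = a i} = Set.univ := by
      ext ω
      simp only [Set.mem_ofPred_eq, Set.mem_univ, iff_true]
      intro h4 h5
      exact absurd ⟨h4, h5⟩ h2
    rw [h3]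
    exact MeasurableSet.univ

theorem meas_G (h : IsBIDLA ν P X) (G : Finset V → Prop) (T : ℕ) :
    MeasurableSet {ω | G (X T ω)} := by
  have h1 : {ω | G (X T ω)} = ⋃ B : Finset V, {ω | G B ∧ X T ω = B} := by
    ext ω
    simp
  rw [h1]
  apply MeasurableSet.iUnion
  intro B
  by_cases hB : G B
  · have h2 : {ω | G B ∧ X T ω = B} = {ω | X T ω = B} := by
      ext ω
      simp [hB]
    rw [h2]
    exact h.meas T B
  · have h2 : {ω | G B ∧ X T ω = B} = ∅ := by
      ext ω
      simp [hB]
    rw [h2]
    exact MeasurableSet.empty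

theorem cyl_main (hM : S_MKV) (h : IsBIDLA ν P X) (G : Finset V → Prop) (d : ℕ) :
    ∀ (t : ℕ) (a : ℕ → Finset V), 1 ≤ t →
      P (cyl X a t ∩ {ω | G (X (t + d) ω)}) = P (cyl X a t) * Phi ν G ⟨a t, [], d⟩ := by
  classical
  induction d with
  | zero =>
    intro t a ht
    rw [Phi_zero]
    by_cases hG : G (a t)
    · have h1 : cyl X a t ∩ {ω | G (X (t + 0) ω)} = cyl X a t := by
        apply Set.inter_eq_left.2
        intro ω hω
        have h2 : X t ω = a t := hω t ht le_rfl
        simp only [Set.mem_ofPred_eq, add_zero, h2]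
        exact hG
      rw [h1, if_pos hG, mul_one]
    · have h1 : cyl X a t ∩ {ω | G (X (t + 0) ω)} = ∅ := by
        apply Set.eq_empty_of_forall_notMem
        rintro ω ⟨hω, hω2⟩
        have h2 : X t ω = a t := hω t ht le_rfl
        simp only [Set.mem_ofPred_eq, add_zero, h2] at hω2
        exact hG hω2
      rw [h1, if_neg hG, mul_zero, measure_empty]
  | succ d ih =>
    intro t a ht
    have hset : cyl X a t ∩ {ω | G (X (t + (d + 1)) ω)} =
        ⋃ B : Finset V, (cyl X (Function.update a (t + 1) B) (t + 1) ∩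
          {ω | G (X (t + 1 + d) ω)}) := by
      ext ω
      simp only [Set.mem_inter_iff, Set.mem_iUnion, exists_and_right]
      have hT : t + (d + 1) = t + 1 + d := by omega
      rw [hT]
      refine and_congr_left fun _ => ⟨fun hω => ⟨X (t + 1) ω, ?_⟩, ?_⟩
      · intro i h1 h2
        rcases Nat.lt_or_ge i (t + 1) with h3 | h3
        · rw [Function.update_of_ne (by omega)]
          exact hω i h1 (by omega)
        · have h4 : i = t + 1 := by omega
          rw [h4, Function.update_self]
      · rintro ⟨B, hB⟩ i h1 h2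
        have h3 := hB i h1 (by omega)
        rwa [Function.update_of_ne (by omega)] at h3
    have hdisj : Pairwise fun B B' : Finset V => Disjoint
        (cyl X (Function.update a (t + 1) B) (t + 1) ∩ {ω | G (X (t + 1 + d) ω)})
        (cyl X (Function.update a (t + 1) B') (t + 1) ∩ {ω | G (X (t + 1 + d) ω)}) := by
      intro B B' hne
      rw [Set.disjoint_left]
      rintro ω ⟨h1, -⟩ ⟨h2, -⟩
      have h3 := h1 (t + 1) (by omega) le_rfl
      have h4 := h2 (t + 1) (by omega) le_rfl
      rw [Function.update_self] at h3 h4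
      exact hne (h3.symm.trans h4)
    rw [hset, measure_iUnion hdisj fun B => (meas_cyl h _ _).inter (meas_G h G _)]
    have hterm : ∀ B : Finset V,
        P (cyl X (Function.update a (t + 1) B) (t + 1) ∩ {ω | G (X (t + 1 + d) ω)}) =
          P (cyl X a t) * (Phi ν (fun C => C = B) ⟨a t, [], 1⟩ * Phi ν G ⟨B, [], d⟩) := by
      intro B
      rw [ih (t + 1) (Function.update a (t + 1) B) (by omega), Function.update_self]
      have h1 : P (cyl X (Function.update a (t + 1) B) (t + 1)) =
          P (cyl X (Function.update a (t + 1) B) t) *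
            tr ν (Function.update a (t + 1) B t) (Function.update a (t + 1) B (t + 1)) :=
        h.markov t (Function.update a (t + 1) B) ht
      have h2 : cyl X (Function.update a (t + 1) B) t = cyl X a t := by
        ext ω
        simp only [cyl, Set.mem_ofPred_eq]
        refine forall_congr' fun i => forall_congr' fun _ => forall_congr' fun hi => ?_
        rw [Function.update_of_ne (by omega)]
      rw [h1, h2, Function.update_self, Function.update_of_ne (by omega), tr, mul_assoc]
    simp only [hterm]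
    rw [ENNReal.tsum_mul_left, ← hM ν G (a t) 1 d, Nat.add_comm 1 d]

end

theorem t_CYL : S_CYL := by
  intro hM ν Ω mΩ P X h t T a G ht hT
  have h1 := cyl_main hM h G (T - t) t a ht
  rw [Nat.add_sub_cancel' hT] at h1
  exact h1

end Pool.Agent.K1H92.BI53
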